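import Pool.Agent.Helper57.SS.Goals

/-!
# Packet SS-LF5 (MP_9a4587_an): the atoms
-/

set_option autoImplicit false

namespace Pool.Agent.Helper59.SS

open MeasureTheory Filter Topology Pool.Agent.Helper57.SS

theorem avg_bound (N : ℕ) (X : ℕ → ℂ) (c : ℝ) (hc : 0 ≤ c) (h : ∀ k, ‖X k‖ ≤ c) :
    ‖(N : ℂ)⁻¹ * ∑ k ∈ Finset.range N, X k‖ ≤ c := by
  rcases Nat.eq_zero_or_pos N with h0 | h0
  · subst h0
    simpa using hc
  · have hN : (0 : ℝ) < N := by exact_mod_cast h0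
    rw [norm_mul, norm_inv, Complex.norm_natCast]
    have h1 : ‖∑ k ∈ Finset.range N, X k‖ ≤ N * c := by
      refine (norm_sum_le _ _).trans ?_
      refine (Finset.sum_le_sum fun k _ => h k).trans ?_
      simp
    calc (N : ℝ)⁻¹ * ‖∑ k ∈ Finset.range N, X k‖ ≤ (N : ℝ)⁻¹ * (N * c) :=
          mul_le_mul_of_nonneg_left h1 (by positivity)
      _ = c := by field_simp

section
variable {α : Type} [MeasurableSpace α] {μ : Measure α} [IsProbabilityMeasure μ]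

omit [IsProbabilityMeasure μ] in
theorem psi_iter (T : α → α) (hT : MeasurePreserving T μ μ) (ψ : α → ℂ) (θ : Ci)
    (h : ∀ᵐ x ∂μ, ψ (T x) = fourier 1 θ * ψ x) (k : ℕ) :
    ∀ᵐ x ∂μ, ψ (T^[k] x) = fourier (k : ℤ) θ * ψ x := by
  induction k with
  | zero =>
    refine ae_of_all _ fun x => ?_
    simp
  | succ k ih =>
    have h1 : ∀ᵐ x ∂μ, ψ (T (T^[k] x)) = fourier 1 θ * ψ (T^[k] x) :=
      (hT.iterate k).quasiMeasurePreserving.ae h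
    filter_upwards [h1, ih] with x hx1 hx2
    rw [Function.iterate_succ_apply', hx1, hx2, ← mul_assoc, ← fourier_add, add_comm]
    norm_cast

theorem enorm_le_one {u : ℝ} (hu : |u| ≤ 1) : ‖((u : ℝ) : ℂ)‖ₑ ≤ 1 := by
  rw [← ofReal_norm, Complex.norm_real, Real.norm_eq_abs]
  exact ENNReal.ofReal_le_one.2 hu

theorem bound1 (T : α → α) (hT : MeasurePreserving T μ μ) (u v : α → ℝ) (hu : ∀ x, |u x| ≤ 1)
    (hv : ∀ x, |v x| ≤ 1) (D : α → ℂ) (hD : MemLp D 2 μ) :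
    ‖∫ x, ((u x : ℝ) : ℂ) * D (T x) * ((v x : ℝ) : ℂ) ∂μ‖ ≤ (eLpNorm D 2 μ).toReal := by
  have h1 : ‖∫ x, ((u x : ℝ) : ℂ) * D (T x) * ((v x : ℝ) : ℂ) ∂μ‖ₑ ≤ eLpNorm D 2 μ := by
    calc ‖∫ x, ((u x : ℝ) : ℂ) * D (T x) * ((v x : ℝ) : ℂ) ∂μ‖ₑ
        ≤ ∫⁻ x, ‖((u x : ℝ) : ℂ) * D (T x) * ((v x : ℝ) : ℂ)‖ₑ ∂μ := enorm_integral_le_lintegral_enorm _
      _ ≤ ∫⁻ x, ‖(D ∘ T) x‖ₑ ∂μ := by
          refine lintegral_mono fun x => ?_
          rw [enorm_mul, enorm_mul]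
          calc ‖((u x : ℝ) : ℂ)‖ₑ * ‖D (T x)‖ₑ * ‖((v x : ℝ) : ℂ)‖ₑ ≤ 1 * ‖D (T x)‖ₑ * 1 := by
                gcongr
                · exact enorm_le_one (hu x)
                · exact enorm_le_one (hv x)
            _ = ‖(D ∘ T) x‖ₑ := by simp
      _ = eLpNorm (D ∘ T) 1 μ := (eLpNorm_one_eq_lintegral_enorm).symm
      _ ≤ eLpNorm (D ∘ T) 2 μ :=
          eLpNorm_le_eLpNorm_of_exponent_le (by norm_num) (hD.comp_measurePreserving hT).1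
      _ = eLpNorm D 2 μ := eLpNorm_comp_measurePreserving hD.1 hT
  rw [← toReal_enorm]
  exact ENNReal.toReal_mono hD.2.ne h1

omit [IsProbabilityMeasure μ] in
theorem bound2 (u : α → ℝ) (hu : ∀ x, |u x| ≤ 1) (ψ E : α → ℂ) (hψ : MemLp ψ 2 μ)
    (hE : AEStronglyMeasurable E μ) :
    ‖∫ x, ((u x : ℝ) : ℂ) * (ψ x * E x) ∂μ‖ₑ ≤ eLpNorm ψ 2 μ * eLpNorm E 2 μ := by
  calc ‖∫ x, ((u x : ℝ) : ℂ) * (ψ x * E x) ∂μ‖ₑ
      ≤ ∫⁻ x, ‖((u x : ℝ) : ℂ) * (ψ x * E x)‖ₑ ∂μ := enorm_integral_le_lintegral_enorm _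
    _ ≤ ∫⁻ x, ‖(ψ • E) x‖ₑ ∂μ := by
        refine lintegral_mono fun x => ?_
        rw [enorm_mul]
        calc ‖((u x : ℝ) : ℂ)‖ₑ * ‖ψ x * E x‖ₑ ≤ 1 * ‖ψ x * E x‖ₑ := by
              gcongr
              exact enorm_le_one (hu x)
          _ = ‖(ψ • E) x‖ₑ := by simp [smul_eq_mul]
    _ = eLpNorm (ψ • E) 1 μ := (eLpNorm_one_eq_lintegral_enorm).symm
    _ ≤ eLpNorm ψ 2 μ * eLpNorm E 2 μ := by
        exact eLpNorm_smul_le_mul_eLpNorm hE hψ.1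

end

theorem gLF5 : G_LF5 := by
  intro hELT hHZ hHZ1 hZP hVN hVNT α _ μ _ T S a b f g U Nj h φ r hL hg0 θ n
  obtain ⟨ψ, hψ, hψT, hψL⟩ := hVNT α μ (⇑T) hL.hs.mR f hL.hf θ
  obtain ⟨z0, zn, zneg, zadd, zmeas, zmp, zcom⟩ := hZP α T
  have hTmp : MeasurePreserving (⇑T) μ μ := hL.hs.mR
  let G : α → ℝ := fun x => g (zp T n x)
  have hGm : Measurable G := hL.hg.1.comp (zmeas n)
  have hGb : ∀ x, |G x| ≤ 1 := fun x => hL.hg.2 _
  have hG0 : ∫ x, G x ∂μ = 0 := by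
    have h1 : ∫ x, g (zp T n x) ∂μ = ∫ y, g y ∂(μ.map (zp T n)) :=
      (integral_map (zmeas n).aemeasurable hL.hg.1.aestronglyMeasurable).symm
    show ∫ x, g (zp T n x) ∂μ = 0
    rw [h1, (zmp μ hTmp n).map_eq, hg0]
  have hGmem : MemLp G 2 μ :=
    MemLp.of_bound hGm.aestronglyMeasurable 1 (ae_of_all _ fun x => by
      rw [Real.norm_eq_abs]; exact hGb x)
  have hE := hELT hHZ hHZ1 hZP hVN a b hL.hW α μ S hL.hs.eS G hGmem hG0 θ
  let E : ℕ → α → ℂ := fun N x => (N : ℂ)⁻¹ * ∑ k ∈ Finset.range N,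
    fourier (a k : ℤ) θ * ((G ((⇑S)^[b k] x) : ℝ) : ℂ)
  have hGS : ∀ k, Measurable (fun x => ((G ((⇑S)^[b k] x) : ℝ) : ℂ)) := fun k =>
    Complex.measurable_ofReal.comp (hGm.comp (S.measurable.iterate (b k)))
  have hEm : ∀ N, Measurable (E N) := by
    intro N
    refine Measurable.const_mul ?_ _
    exact Finset.measurable_fun_sum _ fun k _ => (hGS k).const_mul _
  let B : ℕ → ℂ := fun j => ∫ x, ((h j x : ℝ) : ℂ) * (ψ x * E (Nj j) x) ∂μ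
  have hB : Tendsto B U (𝓝 0) := by
    have h1 : Tendsto (fun j => eLpNorm ψ 2 μ * eLpNorm (E (Nj j)) 2 μ) U (𝓝 0) := by
      have h2 : Tendsto (fun j => eLpNorm (E (Nj j)) 2 μ) U (𝓝 0) := hE.comp hL.hN
      have h3 := ENNReal.Tendsto.const_mul (a := eLpNorm ψ 2 μ) h2 (Or.inr hψ.2.ne)
      rwa [mul_zero] at h3
    rw [tendsto_iff_enorm_sub_tendsto_zero]
    refine tendsto_of_tendsto_of_tendsto_of_le_of_le tendsto_const_nhds h1 (fun _ => zero_le) (fun j => ?_)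
    simp only [sub_zero]
    exact bound2 (h j) (hL.hh j).2 ψ (E (Nj j)) hψ (hEm _).aestronglyMeasurable
  let fM : ℕ → α → ℂ := fun M x => (M : ℂ)⁻¹ * ∑ m ∈ Finset.range M,
    fourier (-(m : ℤ)) θ * ((f ((⇑T)^[m] x) : ℝ) : ℂ)
  have hfm : Measurable f := hL.hf.1
  have hfT : ∀ m, Measurable (fun x => ((f ((⇑T)^[m] x) : ℝ) : ℂ)) := fun m =>
    Complex.measurable_ofReal.comp (hfm.comp (T.measurable.iterate m))
  have hfMm : ∀ M, Measurable (fM M) := by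
    intro M
    refine Measurable.const_mul ?_ _
    exact Finset.measurable_fun_sum _ fun m _ => (hfT m).const_mul _
  have hnf : ∀ (k : ℤ) (t : Ci), ‖fourier k t‖ = 1 := fun k t => by
    rw [fourier_apply]; simp
  have hfMb : ∀ M x, ‖fM M x‖ ≤ 1 := by
    intro M x
    refine avg_bound M _ 1 zero_le_one fun m => ?_
    rw [norm_mul, hnf, one_mul, Complex.norm_real, Real.norm_eq_abs]
    exact hL.hf.2 _
  have hfMmem : ∀ M, MemLp (fM M) 2 μ := fun M =>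
    MemLp.of_bound (hfMm M).aestronglyMeasurable 1 (ae_of_all _ (hfMb M))
  have hDmem : ∀ M, MemLp (fun x => fM M x - ψ x) 2 μ := fun M => (hfMmem M).sub hψ
  have hψi : Integrable ψ μ := hψ.integrable (by norm_num)
  have hhm : ∀ j, Measurable (fun x => ((h j x : ℝ) : ℂ)) := fun j =>
    Complex.measurable_ofReal.comp (hL.hh j).1
  have hhb : ∀ j x, ‖((h j x : ℝ) : ℂ)‖ ≤ 1 := fun j x => by
    rw [Complex.norm_real, Real.norm_eq_abs]; exact (hL.hh j).2 x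
  have hGSb : ∀ k x, ‖((G ((⇑S)^[b k] x) : ℝ) : ℂ)‖ ≤ 1 := fun k x => by
    rw [Complex.norm_real, Real.norm_eq_abs]; exact hGb _
  have hfTb : ∀ m x, ‖((f ((⇑T)^[m] x) : ℝ) : ℂ)‖ ≤ 1 := fun m x => by
    rw [Complex.norm_real, Real.norm_eq_abs]; exact hL.hf.2 _
  -- `h * (w ∘ T^k) * G ∘ S` is integrable for integrable `w`
  have hint : ∀ (j k l : ℕ) (w : α → ℂ), Integrable w μ → Integrable (fun x =>
      ((h j x : ℝ) : ℂ) * w ((⇑T)^[l] x) * ((G ((⇑S)^[b k] x) : ℝ) : ℂ)) μ := by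
    intro j k l w hw
    have h1 : Integrable (fun x => w ((⇑T)^[l] x)) μ :=
      ((hTmp.iterate l).integrable_comp hw.1).2 hw
    have h2 : Integrable (fun x => ((h j x : ℝ) : ℂ) * w ((⇑T)^[l] x)) μ :=
      h1.bdd_mul (c := 1) (hhm j).aestronglyMeasurable (ae_of_all _ (hhb j))
    exact h2.mul_bdd (c := 1) (hGS k).aestronglyMeasurable (ae_of_all _ (hGSb k))
  -- first formula
  have hBf : ∀ j : ℕ, B j = (Nj j : ℂ)⁻¹ * ∑ k ∈ Finset.range (Nj j),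
      ∫ x, ((h j x : ℝ) : ℂ) * ψ ((⇑T)^[a k] x) * ((G ((⇑S)^[b k] x) : ℝ) : ℂ) ∂μ := by
    intro j
    have h1 : ∀ k, ∫ x, ((h j x : ℝ) : ℂ) * ψ ((⇑T)^[a k] x) * ((G ((⇑S)^[b k] x) : ℝ) : ℂ) ∂μ =
        ∫ x, fourier (a k : ℤ) θ * (((h j x : ℝ) : ℂ) * ψ x * ((G ((⇑S)^[b k] x) : ℝ) : ℂ)) ∂μ := by
      intro k
      refine integral_congr_ae ?_
      filter_upwards [psi_iter (⇑T) hTmp ψ θ hψT (a k)] with x hx
      rw [hx]
      ring
    have h4 : ∀ k, Integrable (fun x => fourier (a k : ℤ) θ * (((h j x : ℝ) : ℂ) * ψ x *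
        ((G ((⇑S)^[b k] x) : ℝ) : ℂ))) μ := fun k => (hint j k 0 ψ hψi).const_mul _
    simp only [h1]
    rw [← integral_finsetSum _ (fun k _ => h4 k), ← integral_const_mul]
    refine integral_congr_ae (ae_of_all _ fun x => ?_)
    show ((h j x : ℝ) : ℂ) * (ψ x * ((Nj j : ℂ)⁻¹ * ∑ k ∈ Finset.range (Nj j),
      fourier (a k : ℤ) θ * ((G ((⇑S)^[b k] x) : ℝ) : ℂ))) = _
    simp only [Finset.mul_sum]
    exact Finset.sum_congr rfl fun k _ => by ring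
  -- second formula
  have hAf : ∀ M j : ℕ, (M : ℂ)⁻¹ * ∑ m ∈ Finset.range M, fourier (-(m : ℤ)) θ *
      ((PhN T S T μ a b f g (h j) (Nj j) ((m : ℤ), n) : ℝ) : ℂ) =
      (Nj j : ℂ)⁻¹ * ∑ k ∈ Finset.range (Nj j),
      ∫ x, ((h j x : ℝ) : ℂ) * fM M ((⇑T)^[a k] x) * ((G ((⇑S)^[b k] x) : ℝ) : ℂ) ∂μ := by
    intro M j
    have h1 : ∀ k, ∫ x, ((h j x : ℝ) : ℂ) * fM M ((⇑T)^[a k] x) * ((G ((⇑S)^[b k] x) : ℝ) : ℂ) ∂μ =
        (M : ℂ)⁻¹ * ∑ m ∈ Finset.range M, fourier (-(m : ℤ)) θ *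
          ((∫ x, h j x * f (zp T (m : ℤ) ((⇑T)^[a k] x)) * g (zp T n ((⇑S)^[b k] x)) ∂μ : ℝ) : ℂ) := by
      intro k
      have h2 : ∀ m : ℕ, fourier (-(m : ℤ)) θ *
          ((∫ x, h j x * f (zp T (m : ℤ) ((⇑T)^[a k] x)) * g (zp T n ((⇑S)^[b k] x)) ∂μ : ℝ) : ℂ) =
          ∫ x, fourier (-(m : ℤ)) θ * (((h j x : ℝ) : ℂ) * ((f ((⇑T)^[m] ((⇑T)^[a k] x)) : ℝ) : ℂ) *
            ((G ((⇑S)^[b k] x) : ℝ) : ℂ)) ∂μ := by
        intro m
        rw [integral_const_mul, ← integral_complex_ofReal]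
        congr 1
        refine integral_congr_ae (ae_of_all _ fun x => ?_)
        simp only [zn]
        push_cast
        rfl
      have h3 : ∀ m : ℕ, Integrable (fun x => fourier (-(m : ℤ)) θ * (((h j x : ℝ) : ℂ) *
          ((f ((⇑T)^[m] ((⇑T)^[a k] x)) : ℝ) : ℂ) * ((G ((⇑S)^[b k] x) : ℝ) : ℂ))) μ := by
        intro m
        refine Integrable.const_mul ?_ _
        refine hint j k (a k) (fun x => ((f ((⇑T)^[m] x) : ℝ) : ℂ)) ?_
        exact (MemLp.of_bound (p := 1) (hfT m).aestronglyMeasurable 1 (ae_of_all _ (hfTb m))).integrable le_rfl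
      simp only [h2]
      rw [← integral_finsetSum _ (fun m _ => h3 m), ← integral_const_mul]
      refine integral_congr_ae (ae_of_all _ fun x => ?_)
      show ((h j x : ℝ) : ℂ) * ((M : ℂ)⁻¹ * ∑ m ∈ Finset.range M,
        fourier (-(m : ℤ)) θ * ((f ((⇑T)^[m] ((⇑T)^[a k] x)) : ℝ) : ℂ)) * ((G ((⇑S)^[b k] x) : ℝ) : ℂ) = _
      simp only [Finset.mul_sum, Finset.sum_mul]
      exact Finset.sum_congr rfl fun m _ => by ring
    simp only [h1]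
    unfold PhN
    push_cast
    simp only [Finset.mul_sum]
    rw [Finset.sum_comm]
    refine Finset.sum_congr rfl fun k _ => Finset.sum_congr rfl fun m _ => ?_
    ring
  -- the difference
  have key : ∀ M j : ℕ, ‖(M : ℂ)⁻¹ * ∑ m ∈ Finset.range M, fourier (-(m : ℤ)) θ *
      ((PhN T S T μ a b f g (h j) (Nj j) ((m : ℤ), n) : ℝ) : ℂ) - B j‖ ≤
      (eLpNorm (fun x => fM M x - ψ x) 2 μ).toReal := by
    intro M j
    rw [hAf, hBf, ← mul_sub, ← Finset.sum_sub_distrib]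
    refine avg_bound _ _ _ ENNReal.toReal_nonneg fun k => ?_
    have hfMi : Integrable (fM M) μ := (hfMmem M).integrable (by norm_num)
    rw [← integral_sub (hint j k (a k) (fM M) hfMi) (hint j k (a k) ψ hψi)]
    have h1 : (fun x => ((h j x : ℝ) : ℂ) * fM M ((⇑T)^[a k] x) * ((G ((⇑S)^[b k] x) : ℝ) : ℂ) -
        ((h j x : ℝ) : ℂ) * ψ ((⇑T)^[a k] x) * ((G ((⇑S)^[b k] x) : ℝ) : ℂ)) =
        fun x => ((h j x : ℝ) : ℂ) * (fun y => fM M y - ψ y) ((⇑T)^[a k] x) *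
          ((G ((⇑S)^[b k] x) : ℝ) : ℂ) := by
      funext x
      show _ = ((h j x : ℝ) : ℂ) * (fM M ((⇑T)^[a k] x) - ψ ((⇑T)^[a k] x)) * ((G ((⇑S)^[b k] x) : ℝ) : ℂ)
      ring
    rw [h1]
    exact bound1 ((⇑T)^[a k]) (hTmp.iterate (a k)) (h j) (fun x => G ((⇑S)^[b k] x)) (hL.hh j).2
      (fun x => hGb _) (fun y => fM M y - ψ y) (hDmem M)
  -- the limit
  have hlim : ∀ M : ℕ, ‖(M : ℂ)⁻¹ * ∑ m ∈ Finset.range M, fourier (-(m : ℤ)) θ *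
      ((φ ((m : ℤ), n) : ℝ) : ℂ)‖ ≤ (eLpNorm (fun x => fM M x - ψ x) 2 μ).toReal := by
    intro M
    have h1 : Tendsto (fun j => (M : ℂ)⁻¹ * ∑ m ∈ Finset.range M, fourier (-(m : ℤ)) θ *
        ((PhN T S T μ a b f g (h j) (Nj j) ((m : ℤ), n) : ℝ) : ℂ) - B j) U
        (𝓝 ((M : ℂ)⁻¹ * ∑ m ∈ Finset.range M, fourier (-(m : ℤ)) θ * ((φ ((m : ℤ), n) : ℝ) : ℂ) - 0)) := by
      refine Tendsto.sub (Tendsto.const_mul _ ?_) hB
      refine tendsto_finsetSum _ fun m _ => Tendsto.const_mul _ ?_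
      exact (Complex.continuous_ofReal.tendsto _).comp (hL.hφ ((m : ℤ), n))
    rw [sub_zero] at h1
    exact le_of_tendsto h1.norm (Eventually.of_forall fun j => key M j)
  have hδ : Tendsto (fun M => (eLpNorm (fun x => fM M x - ψ x) 2 μ).toReal) atTop (𝓝 0) := by
    have h1 : Tendsto (fun M => (eLpNorm (fun x => fM M x - ψ x) 2 μ).toReal) atTop
        (𝓝 (0 : ENNReal).toReal) := (ENNReal.tendsto_toReal (a := 0) (by simp)).comp hψL
    rwa [ENNReal.toReal_zero] at h1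
  exact squeeze_zero_norm hlim hδ

end Pool.Agent.Helper59.SS
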